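import Mathlib

set_option autoImplicit false

namespace Pool.Agent.Helper53.CD

/-- the exponent of a prime in a number `≤ M` is at most `M` -/
lemma fac_le {M u : ℕ} (p : ℕ) (hu0 : 0 < u) (hu : u ≤ M) : u.factorization p ≤ M := by
  have h1 : u.factorization p < u := Nat.factorization_lt p hu0.ne'
  omega

lemma fac_eq {u v a j b e f : ℕ} (hu : 0 < u) (hv : 0 < v) (hb : 2 ≤ b)
    (h : u * (3 ^ a * b ^ e) = v * (2 ^ j * b ^ f)) (p : ℕ) :
    u.factorization p + (a * (Nat.factorization 3) p + e * b.factorization p) =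
      v.factorization p + (j * (Nat.factorization 2) p + f * b.factorization p) := by
  have h1 := congrArg Nat.factorization h
  have hb0 : b ≠ 0 := by omega
  have h3 : (3 ^ a * b ^ e : ℕ) ≠ 0 := by positivity
  have h4 : (2 ^ j * b ^ f : ℕ) ≠ 0 := by positivity
  rw [Nat.factorization_mul hu.ne' h3, Nat.factorization_mul hv.ne' h4,
    Nat.factorization_mul (by positivity) (by positivity),
    Nat.factorization_mul (by positivity) (by positivity), Nat.factorization_pow,
    Nat.factorization_pow, Nat.factorization_pow, Nat.factorization_pow] at h1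
  have h2 := DFunLike.congr_fun h1 p
  simpa using h2

/-- arithmetic: near coincidences `3 ^ a b ^ e ≈ 2 ^ j b ^ f` bound `a` -/
lemma arith (b M : ℕ) (hb : 2 ≤ b) : ∃ A : ℕ, ∀ a j e f u v : ℕ, a ≤ j → 0 < u → u ≤ M → 0 < v →
    v ≤ M → u * (3 ^ a * b ^ e) = v * (2 ^ j * b ^ f) →
    a ≤ A ∧ ((¬ ∃ r, b = 2 ^ r) → j ≤ A) := by
  refine ⟨M + M * b.factorization 2, ?_⟩
  intro a j e f u v haj hu0 hu hv0 hv h
  have h3 := fac_eq hu0 hv0 hb h 3
  have h2 := fac_eq hu0 hv0 hb h 2
  have e33 : (Nat.factorization 3) 3 = 1 := Nat.Prime.factorization_self Nat.prime_three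
  have e22 : (Nat.factorization 2) 2 = 1 := Nat.Prime.factorization_self Nat.prime_two
  have e23 : (Nat.factorization 2) 3 = 0 := by
    apply Nat.factorization_eq_zero_of_not_dvd; decide
  have e32 : (Nat.factorization 3) 2 = 0 := by
    apply Nat.factorization_eq_zero_of_not_dvd; decide
  rw [e33, e23] at h3
  rw [e22, e32] at h2
  have u3 := fac_le 3 hu0 hu
  have v3 := fac_le 3 hv0 hv
  have u2 := fac_le 2 hu0 hu
  have v2 := fac_le 2 hv0 hv
  -- if `e ≤ f + M` then `j` is bounded
  have hj : e ≤ f + M → j ≤ M + M * b.factorization 2 := by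
    intro hef
    have h5 : e * b.factorization 2 ≤ (f + M) * b.factorization 2 := Nat.mul_le_mul_right _ hef
    nlinarith
  by_cases hb3 : 3 ∣ b
  · have hef : e ≤ f + M := by
      have h5 : 0 < b.factorization 3 :=
        Nat.Prime.factorization_pos_of_dvd Nat.prime_three (by omega) hb3
      by_contra hcon
      push Not at hcon
      have h6 : (f + M + 1) * b.factorization 3 ≤ e * b.factorization 3 :=
        Nat.mul_le_mul_right _ hcon
      nlinarith
    exact ⟨haj.trans (hj hef), fun _ => hj hef⟩
  · have hf3 : b.factorization 3 = 0 := Nat.factorization_eq_zero_of_not_dvd hb3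
    rw [hf3] at h3
    refine ⟨by omega, ?_⟩
    intro hpow
    apply hj
    -- a prime factor `p ≥ 5`
    obtain ⟨p, hp, hpb, hp2⟩ : ∃ p, p.Prime ∧ p ∣ b ∧ p ≠ 2 := by
      by_contra hcon
      push Not at hcon
      apply hpow
      exact ⟨_, Nat.eq_prime_pow_of_unique_prime_dvd (by omega) (fun {q} hq hqb => hcon q hq hqb)⟩
    have hp3 : p ≠ 3 := by rintro rfl; exact hb3 hpb
    have h5 : 0 < b.factorization p := hp.factorization_pos_of_dvd (by omega) hpb
    have hh := fac_eq hu0 hv0 hb h p
    have e3p : (Nat.factorization 3) p = 0 := by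
      apply Nat.factorization_eq_zero_of_not_dvd
      intro hd
      exact hp3 ((Nat.prime_dvd_prime_iff_eq hp Nat.prime_three).1 hd)
    have e2p : (Nat.factorization 2) p = 0 := by
      apply Nat.factorization_eq_zero_of_not_dvd
      intro hd
      exact hp2 ((Nat.prime_dvd_prime_iff_eq hp Nat.prime_two).1 hd)
    rw [e3p, e2p] at hh
    have vp := fac_le p hv0 hv
    by_contra hcon
    push Not at hcon
    have h6 : (f + M + 1) * b.factorization p ≤ e * b.factorization p :=
      Nat.mul_le_mul_right _ hcon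
    nlinarith

end Pool.Agent.Helper53.CD
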