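import Mathlib

set_option autoImplicit false

namespace Pool.Agent.Helper53.CD

/-- the `3x+1` map on the integers -/
def T (x : ℤ) : ℤ := if x % 2 = 0 then x / 2 else (3 * x + 1) / 2

/-- the number of the odd integers among `x, T x, ..., T^(j-1) x` -/
def odds (x : ℤ) (j : ℕ) : ℕ := ((Finset.range j).filter (fun i => T^[i] x % 2 = 1)).card

/-- `z` is a sum of at most `k` terms `c * b ^ i`, with different exponents `i` and integers `c` with
`|c| ≤ H` -/
def Few (b k H : ℕ) (z : ℤ) : Prop :=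
  ∃ (s : Finset ℕ) (c : ℕ → ℤ), s.card ≤ k ∧ (∀ i ∈ s, |c i| ≤ H) ∧ z = ∑ i ∈ s, c i * (b : ℤ) ^ i

/-- `x` is a quotient of two sums of at most `k` terms `c * b ^ i` with `|c| ≤ H`, with a positive
denominator which is at most `Q` -/
def Sparse (b k H Q : ℕ) (x : ℤ) : Prop :=
  ∃ D : ℤ, 1 ≤ D ∧ D ≤ Q ∧ Few b k H D ∧ Few b k H (D * x)

/-- the digit of `|x|` at `b ^ i`, in base `b` -/
def dig (b : ℕ) (x : ℤ) (i : ℕ) : ℕ := x.natAbs / b ^ i % b

/-- at most `k` digits of `x` in base `b` are different from zero -/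
def FewDigits (b k : ℕ) (x : ℤ) : Prop := Set.encard {i : ℕ | dig b x i ≠ 0} ≤ k

/-- in the expansion of `x` in base `b` (which begins with infinitely many zeros) at most `k` digits
are different from the digit `R` places before it -/
def FewChanges (b R k : ℕ) (x : ℤ) : Prop := Set.encard {i : ℕ | dig b x i ≠ dig b x (i + R)} ≤ k

lemma odds_le (x : ℤ) (j : ℕ) : odds x j ≤ j := by
  unfold odds
  exact (Finset.card_filter_le _ _).trans (by simp)

lemma odds_succ (x : ℤ) (j : ℕ) :
    odds x (j + 1) = odds x j + if T^[j] x % 2 = 1 then 1 else 0 := by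
  unfold odds
  rw [Finset.range_add_one, Finset.filter_insert]
  split_ifs with h
  · rw [Finset.card_insert_of_notMem (by simp)]
  · rfl

lemma T_even {x : ℤ} (h : x % 2 = 0) : 2 * T x = x := by
  unfold T
  rw [if_pos h]; omega

lemma T_odd {x : ℤ} (h : x % 2 = 1) : 2 * T x = 3 * x + 1 := by
  unfold T
  rw [if_neg (by omega)]; omega

/-- `2 ^ j T^j x = 3 ^ a x + φ` -/
lemma formula (x : ℤ) (j : ℕ) : ∃ φ : ℤ, 0 ≤ φ ∧ φ + 2 ^ j ≤ 3 ^ j ∧
    2 ^ j * T^[j] x = 3 ^ (odds x j) * x + φ := by
  induction j with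
  | zero => exact ⟨0, le_rfl, by simp, by simp [odds]⟩
  | succ j ih =>
    obtain ⟨φ, h0, h1, h2⟩ := ih
    rw [Function.iterate_succ_apply', odds_succ]
    rcases Int.emod_two_eq_zero_or_one (T^[j] x) with h | h
    · refine ⟨φ, h0, ?_, ?_⟩
      · have h3 : (0 : ℤ) < 2 ^ j := by positivity
        have h4 : (0 : ℤ) < 3 ^ j := by positivity
        rw [pow_succ, pow_succ]
        nlinarith
      · rw [if_neg (by omega), add_zero, ← h2, pow_succ, mul_assoc, T_even h]
    · refine ⟨3 * φ + 2 ^ j, by positivity, ?_, ?_⟩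
      · rw [pow_succ, pow_succ]
        linarith
      · rw [if_pos h, pow_succ, mul_assoc, T_odd h, pow_succ]
        linear_combination 3 * h2

lemma Few.mono {b k k' H H' : ℕ} {z : ℤ} (h : Few b k H z) (hk : k ≤ k') (hH : H ≤ H') :
    Few b k' H' z := by
  obtain ⟨s, c, h1, h2, h3⟩ := h
  exact ⟨s, c, h1.trans hk, fun i hi => (h2 i hi).trans (by exact_mod_cast hH), h3⟩

/-- products of sums with few terms -/
lemma Few.mul {b k k' H H' : ℕ} {z z' : ℤ} (h : Few b k H z) (h' : Few b k' H' z') :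
    Few b (k * k') (k * H * H') (z * z') := by
  classical
  obtain ⟨s, c, h1, h2, h3⟩ := h
  obtain ⟨t, e, g1, g2, g3⟩ := h'
  refine ⟨(s ×ˢ t).image (fun p => p.1 + p.2),
    fun n => ∑ p ∈ (s ×ˢ t).filter (fun p => p.1 + p.2 = n), c p.1 * e p.2, ?_, ?_, ?_⟩
  · calc ((s ×ˢ t).image (fun p => p.1 + p.2)).card ≤ (s ×ˢ t).card := Finset.card_image_le
      _ = s.card * t.card := Finset.card_product s t
      _ ≤ k * k' := Nat.mul_le_mul h1 g1
  · intro n _
    have hcard : ((s ×ˢ t).filter (fun p => p.1 + p.2 = n)).card ≤ k := by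
      refine le_trans (Finset.card_le_card_of_injOn (fun p => p.1) ?_ ?_) h1
      · intro p hp
        have hp' := Finset.mem_coe.1 hp
        rw [Finset.mem_filter, Finset.mem_product] at hp'
        exact hp'.1.1
      · intro p hp q hq hpq
        have hp' := Finset.mem_coe.1 hp
        have hq' := Finset.mem_coe.1 hq
        rw [Finset.mem_filter] at hp' hq'
        have e1 : p.1 = q.1 := hpq
        have e2 : p.2 = q.2 := by omega
        exact Prod.ext e1 e2
    calc |∑ p ∈ (s ×ˢ t).filter (fun p => p.1 + p.2 = n), c p.1 * e p.2|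
        ≤ ∑ p ∈ (s ×ˢ t).filter (fun p => p.1 + p.2 = n), |c p.1 * e p.2| :=
          Finset.abs_sum_le_sum_abs _ _
      _ ≤ ∑ p ∈ (s ×ˢ t).filter (fun p => p.1 + p.2 = n), ((H : ℤ) * H') := by
          apply Finset.sum_le_sum
          intro p hp
          rw [Finset.mem_filter, Finset.mem_product] at hp
          rw [abs_mul]
          exact mul_le_mul (h2 _ hp.1.1) (g2 _ hp.1.2) (abs_nonneg _) (by positivity)
      _ = ((s ×ˢ t).filter (fun p => p.1 + p.2 = n)).card * ((H : ℤ) * H') := by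
          rw [Finset.sum_const, nsmul_eq_mul]
      _ ≤ k * ((H : ℤ) * H') := by
          apply mul_le_mul_of_nonneg_right _ (by positivity)
          exact_mod_cast hcard
      _ = ((k * H * H' : ℕ) : ℤ) := by push_cast; ring
  · rw [h3, g3, Finset.sum_mul_sum, ← Finset.sum_product']
    rw [← Finset.sum_fiberwise_of_maps_to (s := s ×ˢ t)
      (t := (s ×ˢ t).image (fun p => p.1 + p.2)) (g := fun p => p.1 + p.2)
      (fun p hp => Finset.mem_image_of_mem _ hp)]
    apply Finset.sum_congr rfl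
    intro n _
    rw [Finset.sum_mul]
    apply Finset.sum_congr rfl
    intro p hp
    rw [Finset.mem_filter] at hp
    rw [← hp.2, pow_add]
    ring

end Pool.Agent.Helper53.CD
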