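import Mathlib
import Pool.Agent.Helper53.CD.Defs

set_option autoImplicit false

namespace Pool.Agent.Helper53.CD

open Finset

lemma geom_le {b : ℕ} (hb : 2 ≤ b) (n : ℕ) : ∑ i ∈ range n, (b : ℤ) ^ i ≤ (b : ℤ) ^ n := by
  induction n with
  | zero => simp
  | succ n ih =>
    rw [Finset.sum_range_succ, pow_succ]
    have h1 : (0 : ℤ) < (b : ℤ) ^ n := by positivity
    have h2 : (2 : ℤ) ≤ b := by exact_mod_cast hb
    nlinarith

lemma abs_low {b H : ℕ} (hb : 2 ≤ b) {s : Finset ℕ} {c : ℕ → ℤ} (hc : ∀ i ∈ s, |c i| ≤ H)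
    {n : ℕ} (hs : ∀ i ∈ s, i < n) : |∑ i ∈ s, c i * (b : ℤ) ^ i| ≤ H * (b : ℤ) ^ n := by
  calc |∑ i ∈ s, c i * (b : ℤ) ^ i| ≤ ∑ i ∈ s, |c i * (b : ℤ) ^ i| := Finset.abs_sum_le_sum_abs _ _
    _ ≤ ∑ i ∈ s, (H : ℤ) * (b : ℤ) ^ i := by
        apply Finset.sum_le_sum
        intro i hi
        rw [abs_mul, abs_of_nonneg (by positivity : (0 : ℤ) ≤ (b : ℤ) ^ i)]
        exact mul_le_mul_of_nonneg_right (hc i hi) (by positivity)
    _ ≤ ∑ i ∈ range n, (H : ℤ) * (b : ℤ) ^ i := by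
        apply Finset.sum_le_sum_of_subset_of_nonneg
        · intro i hi; exact Finset.mem_range.2 (hs i hi)
        · intro i _ _; positivity
    _ = H * ∑ i ∈ range n, (b : ℤ) ^ i := by rw [Finset.mul_sum]
    _ ≤ H * (b : ℤ) ^ n := mul_le_mul_of_nonneg_left (geom_le hb n) (by positivity)

lemma dvd_high {b : ℕ} {s : Finset ℕ} {c : ℕ → ℤ} {n : ℕ} (hs : ∀ i ∈ s, n ≤ i) :
    (b : ℤ) ^ n ∣ ∑ i ∈ s, c i * (b : ℤ) ^ i := by
  apply Finset.dvd_sum
  intro i hi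
  exact Dvd.dvd.mul_left (pow_dvd_pow _ (hs i hi)) _

/-- **Splitting.** If `2 ^ j y = 3 ^ a x + φ` and `D x`, `D y` are sums of few terms, then the sums
have nonzero parts with the same relation without `φ`. -/
lemma split {b k H j a D : ℕ} (hb : 2 ≤ b) {x y φ : ℤ} (haj : a ≤ j) (hD : 1 ≤ D)
    (hH : 1 ≤ H) (hφ0 : 0 ≤ φ) (hφ : φ ≤ 3 ^ j) (he : 2 ^ j * y = 3 ^ a * x + φ)
    (hx : Few b k H (D * x)) (hy : Few b k H (D * y))
    (hbig : (H * (4 * b * H * D * 3 ^ j) ^ (2 * k) : ℤ) < |x|) :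
    ∃ (s t : Finset ℕ) (c e : ℕ → ℤ), s.card ≤ k ∧ t.card ≤ k ∧ (∀ i ∈ s, |c i| ≤ H) ∧
      (∀ i ∈ t, |e i| ≤ H) ∧ ∑ i ∈ s, c i * (b : ℤ) ^ i ≠ 0 ∧
      2 ^ j * ∑ i ∈ t, e i * (b : ℤ) ^ i = 3 ^ a * ∑ i ∈ s, c i * (b : ℤ) ^ i := by
  classical
  obtain ⟨s, c, hs, hc, hxs⟩ := hx
  obtain ⟨t, e, ht, hee, hyt⟩ := hy
  set B : ℕ := 4 * H * D * 3 ^ j with hB
  have hB1 : 1 < B := by
    have h1 : 0 < H * D * 3 ^ j := by positivity
    have h2 : B = 4 * (H * D * 3 ^ j) := by rw [hB]; ring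
    omega
  set g : ℕ := Nat.clog b B with hg
  have hg1 : B ≤ b ^ g := Nat.le_pow_clog hb B
  have hg0 : 0 < g := Nat.clog_pos hb hB1
  have hg2 : b ^ g ≤ b * B := by
    have h1 : b ^ (g - 1) < B := Nat.pow_pred_clog_lt_self hb hB1
    have h2 : b ^ g = b * b ^ (g - 1) := by
      rw [← pow_succ']; congr 1; omega
    rw [h2]
    exact Nat.mul_le_mul_left _ h1.le
  -- the gap
  obtain ⟨i, hi1, hi2⟩ : ∃ i ∈ range (2 * k + 1), i ∉ (s ∪ t).image (· / g) := by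
    apply Finset.exists_mem_notMem_of_card_lt_card
    calc ((s ∪ t).image (· / g)).card ≤ (s ∪ t).card := Finset.card_image_le
      _ ≤ s.card + t.card := Finset.card_union_le _ _
      _ < (range (2 * k + 1)).card := by simp; omega
  have hgap : ∀ u ∈ s ∪ t, u < i * g ∨ (i + 1) * g ≤ u := by
    intro u hu
    by_contra hcon
    push Not at hcon
    apply hi2
    rw [Finset.mem_image]
    refine ⟨u, hu, ?_⟩
    apply Nat.div_eq_of_lt_le
    · linarith [hcon.1]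
    · exact hcon.2
  have hik : i ≤ 2 * k := by
    have := Finset.mem_range.1 hi1; omega
  -- parts
  have hsplit : ∀ (s : Finset ℕ) (c : ℕ → ℤ), (∀ u ∈ s, u < i * g ∨ (i + 1) * g ≤ u) →
      ∑ u ∈ s, c u * (b : ℤ) ^ u = ∑ u ∈ s.filter (fun u => u < i * g), c u * (b : ℤ) ^ u +
        ∑ u ∈ s.filter (fun u => ¬ u < i * g), c u * (b : ℤ) ^ u := by
    intro s c _
    exact (Finset.sum_filter_add_sum_filter_not _ _ _).symm
  have hxs2 := hsplit s c (fun u hu => hgap u (Finset.mem_union_left _ hu))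
  have hyt2 := hsplit t e (fun u hu => hgap u (Finset.mem_union_right _ hu))
  set XL := ∑ u ∈ s.filter (fun u => u < i * g), c u * (b : ℤ) ^ u with hXL
  set XH := ∑ u ∈ s.filter (fun u => ¬ u < i * g), c u * (b : ℤ) ^ u with hXH
  set YL := ∑ u ∈ t.filter (fun u => u < i * g), e u * (b : ℤ) ^ u with hYL
  set YH := ∑ u ∈ t.filter (fun u => ¬ u < i * g), e u * (b : ℤ) ^ u with hYH
  have hXLb : |XL| ≤ H * (b : ℤ) ^ (i * g) := by
    apply abs_low hb
    · intro u hu; exact hc u (Finset.mem_filter.1 hu).1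
    · intro u hu; exact (Finset.mem_filter.1 hu).2
  have hYLb : |YL| ≤ H * (b : ℤ) ^ (i * g) := by
    apply abs_low hb
    · intro u hu; exact hee u (Finset.mem_filter.1 hu).1
    · intro u hu; exact (Finset.mem_filter.1 hu).2
  have hXHd : (b : ℤ) ^ ((i + 1) * g) ∣ XH := by
    apply dvd_high
    intro u hu
    rw [Finset.mem_filter] at hu
    rcases hgap u (Finset.mem_union_left _ hu.1) with h | h
    · exact absurd h hu.2
    · exact h
  have hYHd : (b : ℤ) ^ ((i + 1) * g) ∣ YH := by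
    apply dvd_high
    intro u hu
    rw [Finset.mem_filter] at hu
    rcases hgap u (Finset.mem_union_right _ hu.1) with h | h
    · exact absurd h hu.2
    · exact h
  have hpg : (0 : ℤ) < (b : ℤ) ^ (i * g) := by positivity
  have hpgn : (1 : ℤ) ≤ (b : ℤ) ^ (i * g) := hpg
  have hBz : (4 * H * D * 3 ^ j : ℤ) ≤ (b : ℤ) ^ g := by
    have : ((4 * H * D * 3 ^ j : ℕ) : ℤ) ≤ ((b ^ g : ℕ) : ℤ) := by exact_mod_cast hg1
    push_cast at this
    exact this
  have hDz : (1 : ℤ) ≤ D := by exact_mod_cast hD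
  have hHz : (1 : ℤ) ≤ H := by exact_mod_cast hH
  have h3j : (1 : ℤ) ≤ 3 ^ j := one_le_pow₀ (by norm_num)
  have h2j : (2 : ℤ) ^ j ≤ 3 ^ j := pow_le_pow_left₀ (by norm_num) (by norm_num) j
  have h3a : (3 : ℤ) ^ a ≤ 3 ^ j := pow_le_pow_right₀ (by norm_num) haj
  have hZ : 2 ^ j * YH - 3 ^ a * XH = 3 ^ a * XL + D * φ - 2 ^ j * YL := by
    have h1 : 2 ^ j * (D * y) = 3 ^ a * (D * x) + D * φ := by linear_combination (D : ℤ) * he
    rw [hxs, hyt, hxs2, hyt2] at h1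
    linear_combination h1
  have hZ0 : 2 ^ j * YH - 3 ^ a * XH = 0 := by
    apply Int.eq_zero_of_abs_lt_dvd (m := (b : ℤ) ^ ((i + 1) * g))
    · exact dvd_sub (Dvd.dvd.mul_left hYHd _) (Dvd.dvd.mul_left hXHd _)
    · rw [hZ]
      have e1 : |3 ^ a * XL| ≤ 3 ^ j * (H * (b : ℤ) ^ (i * g)) := by
        rw [abs_mul, abs_of_pos (by positivity : (0 : ℤ) < 3 ^ a)]
        exact mul_le_mul h3a hXLb (abs_nonneg _) (by positivity)
      have e2 : |2 ^ j * YL| ≤ 3 ^ j * (H * (b : ℤ) ^ (i * g)) := by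
        rw [abs_mul, abs_of_pos (by positivity : (0 : ℤ) < 2 ^ j)]
        exact mul_le_mul h2j hYLb (abs_nonneg _) (by positivity)
      have e3 : |(D : ℤ) * φ| ≤ D * 3 ^ j := by
        rw [abs_of_nonneg (by positivity)]
        exact mul_le_mul_of_nonneg_left hφ (by positivity)
      have e4 : |3 ^ a * XL + D * φ - 2 ^ j * YL| ≤
          3 ^ j * (H * (b : ℤ) ^ (i * g)) + D * 3 ^ j + 3 ^ j * (H * (b : ℤ) ^ (i * g)) := by
        have := abs_sub (3 ^ a * XL + D * φ) (2 ^ j * YL)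
        have h5 := abs_add_le (3 ^ a * XL) (D * φ)
        linarith
      have e5 : (b : ℤ) ^ ((i + 1) * g) = (b : ℤ) ^ (i * g) * (b : ℤ) ^ g := by
        rw [← pow_add]; congr 1; ring
      rw [e5]
      have e6 : 3 ^ j * (H * (b : ℤ) ^ (i * g)) ≤ H * D * 3 ^ j * (b : ℤ) ^ (i * g) := by
        have : (H : ℤ) * 3 ^ j * (b : ℤ) ^ (i * g) * 1 ≤ (H : ℤ) * 3 ^ j * (b : ℤ) ^ (i * g) * D :=
          mul_le_mul_of_nonneg_left hDz (by positivity)
        nlinarith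
      have e7 : (D : ℤ) * 3 ^ j ≤ H * D * 3 ^ j * (b : ℤ) ^ (i * g) := by
        have h8 : (D : ℤ) * 3 ^ j * 1 ≤ (D : ℤ) * 3 ^ j * (H * (b : ℤ) ^ (i * g)) := by
          apply mul_le_mul_of_nonneg_left _ (by positivity)
          nlinarith
        nlinarith
      have e8 : 4 * (H * D * 3 ^ j * (b : ℤ) ^ (i * g)) ≤ (b : ℤ) ^ (i * g) * (b : ℤ) ^ g := by
        have := mul_le_mul_of_nonneg_left hBz hpg.le
        nlinarith
      have e9 : (0 : ℤ) < H * D * 3 ^ j * (b : ℤ) ^ (i * g) := by positivity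
      linarith
  refine ⟨s.filter (fun u => ¬ u < i * g), t.filter (fun u => ¬ u < i * g), c, e,
    (Finset.card_filter_le _ _).trans hs, (Finset.card_filter_le _ _).trans ht,
    fun u hu => hc u (Finset.mem_filter.1 hu).1, fun u hu => hee u (Finset.mem_filter.1 hu).1,
    ?_, by linarith⟩
  intro h0
  have h0' : XH = 0 := h0
  rw [h0', add_zero] at hxs2
  rw [hxs2] at hxs
  have h1 : |(D : ℤ) * x| ≤ H * (b : ℤ) ^ (i * g) := by rw [hxs]; exact hXLb
  have h2 : |x| ≤ |(D : ℤ) * x| := by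
    rw [abs_mul, abs_of_pos (by positivity : (0 : ℤ) < D)]
    nlinarith [abs_nonneg x]
  have h3 : (b : ℤ) ^ (i * g) ≤ (4 * b * H * D * 3 ^ j) ^ (2 * k) := by
    have h4 : b ^ (i * g) ≤ (b * B) ^ (2 * k) := by
      calc b ^ (i * g) ≤ b ^ (g * (2 * k)) := by
            apply Nat.pow_le_pow_right (by omega)
            rw [mul_comm]
            exact Nat.mul_le_mul_left _ hik
        _ = (b ^ g) ^ (2 * k) := by rw [pow_mul]
        _ ≤ (b * B) ^ (2 * k) := Nat.pow_le_pow_left hg2 _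
    have h5 : ((b ^ (i * g) : ℕ) : ℤ) ≤ (((b * B) ^ (2 * k) : ℕ) : ℤ) := by exact_mod_cast h4
    rw [hB] at h5
    push_cast at h5
    calc (b : ℤ) ^ (i * g) ≤ (b * (4 * H * D * 3 ^ j)) ^ (2 * k) := h5
      _ = (4 * b * H * D * 3 ^ j) ^ (2 * k) := by congr 1; ring
  have h6 : (H : ℤ) * (b : ℤ) ^ (i * g) ≤ H * (4 * b * H * D * 3 ^ j) ^ (2 * k) :=
    mul_le_mul_of_nonneg_left h3 (by positivity)
  linarith

end Pool.Agent.Helper53.CD
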