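import Mathlib
import Pool.Agent.TH419.WI.Classes
import Pool.Agent.Helper53.CD.Split
import Pool.Agent.Helper53.CD.Arith

set_option autoImplicit false

namespace Pool.Agent.Helper53.CD

open Finset Pool.Agent.TH419.WI

lemma smooth_mul_pow {S : Finset ℕ} {q b : ℕ} (j i : ℕ) (hq : q ≠ 0) (hb : b ≠ 0)
    (hqS : q.primeFactors ⊆ S) (hbS : b.primeFactors ⊆ S) : Smooth S (q ^ j * b ^ i) := by
  refine ⟨by positivity, ?_⟩
  rw [Nat.primeFactors_mul (by positivity) (by positivity)]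
  apply Finset.union_subset
  · intro p hp
    have h := Nat.mem_primeFactors.1 hp
    exact hqS (Nat.mem_primeFactors.2 ⟨h.1, h.1.dvd_of_dvd_pow h.2.1, hq⟩)
  · intro p hp
    have h := Nat.mem_primeFactors.1 hp
    exact hbS (Nat.mem_primeFactors.2 ⟨h.1, h.1.dvd_of_dvd_pow h.2.1, hb⟩)

/-- **Key.** Exact relations `2 ^ j Y = 3 ^ a X` between nonzero sums of few terms. -/
lemma key (b k H : ℕ) (hb : 2 ≤ b) : ∃ A : ℕ, ∀ (a j : ℕ) (s t : Finset ℕ) (c e : ℕ → ℤ), a ≤ j →
    s.card ≤ k → t.card ≤ k → (∀ i ∈ s, |c i| ≤ H) → (∀ i ∈ t, |e i| ≤ H) →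
    ∑ i ∈ s, c i * (b : ℤ) ^ i ≠ 0 →
    2 ^ j * ∑ i ∈ t, e i * (b : ℤ) ^ i = 3 ^ a * ∑ i ∈ s, c i * (b : ℤ) ^ i →
    a ≤ A ∧ ((¬ ∃ r, b = 2 ^ r) → j ≤ A) := by
  classical
  set S : Finset ℕ := {2, 3} ∪ b.primeFactors with hSdef
  have hS : ∀ p ∈ S, p.Prime := by
    intro p hp
    rw [hSdef, Finset.mem_union] at hp
    rcases hp with hp | hp
    · simp only [Finset.mem_insert, Finset.mem_singleton] at hp
      rcases hp with rfl | rfl
      · exact Nat.prime_two
      · exact Nat.prime_three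
    · exact Nat.prime_of_mem_primeFactors hp
  obtain ⟨M, hM⟩ := classes S hS (2 * k) H
  obtain ⟨A, hA⟩ := arith b M hb
  refine ⟨A, ?_⟩
  intro a j s t c e haj hs ht hc he hne hrel
  have hb0 : b ≠ 0 := by omega
  have h2S : (2 : ℕ).primeFactors ⊆ S := by
    rw [Nat.Prime.primeFactors Nat.prime_two]
    intro p hp
    rw [Finset.mem_singleton] at hp
    subst hp
    simp [hSdef]
  have h3S : (3 : ℕ).primeFactors ⊆ S := by
    rw [Nat.Prime.primeFactors Nat.prime_three]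
    intro p hp
    rw [Finset.mem_singleton] at hp
    subst hp
    simp [hSdef]
  have hbS : b.primeFactors ⊆ S := by rw [hSdef]; exact Finset.subset_union_right
  by_contra hcon
  let r : ℕ ⊕ ℕ → ℕ := Sum.elim (fun i => 3 ^ a * b ^ i) (fun i => 2 ^ j * b ^ i)
  let lam : ℕ ⊕ ℕ → ℤ := Sum.elim (fun i => - c i) (fun i => e i)
  let w : ℕ ⊕ ℕ → ℕ := Sum.elim (fun _ => 0) (fun _ => 1)
  have hno : ∀ i i' : ℕ, ¬ Near M (3 ^ a * b ^ i) (2 ^ j * b ^ i') := by
    rintro i i' ⟨u, v, hu0, hu, hv0, hv, h⟩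
    exact hcon (hA a j i i' u v haj hu0 hu hv0 hv h)
  have hno' : ∀ i i' : ℕ, ¬ Near M (2 ^ j * b ^ i) (3 ^ a * b ^ i') := by
    rintro i i' ⟨u, v, hu0, hu, hv0, hv, h⟩
    exact hno i' i ⟨v, u, hv0, hv, hu0, hu, h.symm⟩
  have h1 := hM (ℕ ⊕ ℕ) (s.disjSum t) r lam w (by rw [Finset.card_disjSum]; omega)
    (by
      rintro (i | i) hi
      · exact smooth_mul_pow a i (by norm_num) hb0 h3S hbS
      · exact smooth_mul_pow j i (by norm_num) hb0 h2S hbS)
    (by
      rintro (i | i) hi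
      · simp only [lam, Sum.elim_inl, abs_neg]
        exact hc i (by simpa using hi)
      · simp only [lam, Sum.elim_inr]
        exact he i (by simpa using hi))
    (by
      rintro (i | i) hi (i' | i') hi' hnear
      · rfl
      · exact absurd hnear (hno i i')
      · exact absurd hnear (hno' i i')
      · rfl)
    (by
      rw [Finset.sum_disjSum]
      simp only [r, lam, Sum.elim_inl, Sum.elim_inr]
      push_cast
      rw [Finset.mul_sum, Finset.mul_sum] at hrel
      have e1 : ∑ i ∈ s, (3 : ℤ) ^ a * (b : ℤ) ^ i * -c i =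
          - ∑ i ∈ s, (3 : ℤ) ^ a * (c i * (b : ℤ) ^ i) := by
        rw [← Finset.sum_neg_distrib]
        apply Finset.sum_congr rfl
        intro i _
        ring
      have e2 : ∑ i ∈ t, (2 : ℤ) ^ j * (b : ℤ) ^ i * e i =
          ∑ i ∈ t, (2 : ℤ) ^ j * (e i * (b : ℤ) ^ i) := by
        apply Finset.sum_congr rfl
        intro i _
        ring
      rw [e1, e2]
      linarith) 0
  have h2 : (s.disjSum t).filter (fun i => w i = 0) = s.disjSum ∅ := by
    ext x
    rcases x with i | i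
    · simp [w]
    · simp [w]
  rw [h2, Finset.sum_disjSum] at h1
  simp only [Finset.sum_empty, add_zero, r, lam, Sum.elim_inl] at h1
  push_cast at h1
  apply hne
  have e3 : ∑ i ∈ s, (3 : ℤ) ^ a * (b : ℤ) ^ i * -c i =
      - (3 ^ a * ∑ i ∈ s, c i * (b : ℤ) ^ i) := by
    rw [Finset.mul_sum, ← Finset.sum_neg_distrib]
    apply Finset.sum_congr rfl
    intro i _
    ring
  rw [e3, neg_eq_zero] at h1
  rcases mul_eq_zero.1 h1 with h | h
  · exact absurd h (by positivity)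
  · exact h

end Pool.Agent.Helper53.CD
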