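import Mathlib
import Pool.Agent.Helper53.CD.Key

set_option autoImplicit false

namespace Pool.Agent.Helper53.CD

open Finset

/-- **Pairs** of sparse elements of a trajectory. -/
theorem pairs (b k H : ℕ) (hb : 2 ≤ b) : ∃ C : ℕ, 1 ≤ C ∧ ∀ (x : ℤ) (j Q : ℕ),
    ((C * (Q * 3 ^ j) ^ C : ℕ) : ℤ) ≤ |x| → Sparse b k H Q x → Sparse b k H Q (T^[j] x) →
      odds x j ≤ C ∧ ((¬ ∃ r, b = 2 ^ r) → j ≤ C) := by
  set k' : ℕ := k * k with hk'
  set H' : ℕ := k * H * H + 1 with hH'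
  obtain ⟨A, hA⟩ := key b k' H' hb
  set C : ℕ := A + 4 * k' + H' * (4 * b * H') ^ (2 * k') + 1 with hC
  refine ⟨C, by omega, ?_⟩
  intro x j Q hbig hx hy
  obtain ⟨D₁, hD₁, hD₁Q, hfD₁, hfx⟩ := hx
  obtain ⟨D₂, hD₂, hD₂Q, hfD₂, hfy⟩ := hy
  obtain ⟨D, hD⟩ : ∃ D : ℕ, (D : ℤ) = D₁ * D₂ :=
    ⟨(D₁ * D₂).toNat, Int.toNat_of_nonneg (by positivity)⟩
  have hD1 : 1 ≤ D := by
    have : (1 : ℤ) ≤ D := by rw [hD]; nlinarith
    exact_mod_cast this
  have hQ1 : 1 ≤ Q := by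
    have : (1 : ℤ) ≤ Q := hD₁.trans hD₁Q
    exact_mod_cast this
  have hDQ : D ≤ Q ^ 2 := by
    have : (D : ℤ) ≤ Q ^ 2 := by
      rw [hD, pow_two]
      exact mul_le_mul hD₁Q hD₂Q (by linarith) (by positivity)
    exact_mod_cast this
  have hx' : Few b k' H' (D * x) := by
    have h := hfD₂.mul hfx
    have e : D₂ * (D₁ * x) = D * x := by rw [hD]; ring
    rw [e] at h
    exact h.mono le_rfl (by omega)
  have hy' : Few b k' H' (D * T^[j] x) := by
    have h := hfD₁.mul hfy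
    have e : D₁ * (D₂ * T^[j] x) = D * T^[j] x := by rw [hD]; ring
    rw [e] at h
    exact h.mono le_rfl (by omega)
  obtain ⟨φ, h0, h1, h2⟩ := formula x j
  have hlt : (H' * (4 * b * H' * D * 3 ^ j) ^ (2 * k') : ℤ) < |x| := by
    refine lt_of_lt_of_le ?_ hbig
    have hnat : H' * (4 * b * H' * D * 3 ^ j) ^ (2 * k') < C * (Q * 3 ^ j) ^ C := by
      have h3 : 1 ≤ Q * 3 ^ j := Nat.one_le_iff_ne_zero.2 (by positivity)
      calc H' * (4 * b * H' * D * 3 ^ j) ^ (2 * k')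
          ≤ H' * (4 * b * H' * Q ^ 2 * 3 ^ j) ^ (2 * k') := by gcongr
        _ = H' * (4 * b * H') ^ (2 * k') * (Q ^ 2 * 3 ^ j) ^ (2 * k') := by
            rw [mul_assoc (4 * b * H') (Q ^ 2), mul_pow]; ring
        _ ≤ H' * (4 * b * H') ^ (2 * k') * ((Q * 3 ^ j) ^ 2) ^ (2 * k') := by
            have h4 : Q ^ 2 * 3 ^ j ≤ (Q * 3 ^ j) ^ 2 := by
              rw [mul_pow]
              apply Nat.mul_le_mul_left
              rw [pow_two]
              exact Nat.le_mul_of_pos_left _ (by positivity)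
            gcongr
        _ = H' * (4 * b * H') ^ (2 * k') * (Q * 3 ^ j) ^ (4 * k') := by
            rw [← pow_mul]; congr 2; ring
        _ ≤ H' * (4 * b * H') ^ (2 * k') * (Q * 3 ^ j) ^ C := by
            apply Nat.mul_le_mul_left
            exact Nat.pow_le_pow_right h3 (by omega)
        _ < C * (Q * 3 ^ j) ^ C := by
            apply Nat.mul_lt_mul_of_pos_right (by omega)
            positivity
    exact_mod_cast hnat
  have h2j : (0 : ℤ) < 2 ^ j := by positivity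
  obtain ⟨s, t, c, e, hs, ht, hc, he, hne, hrel⟩ := split hb (odds_le x j) hD1
    (by omega : 1 ≤ H') h0 (by linarith) h2 hx' hy' hlt
  obtain ⟨g1, g2⟩ := hA _ _ s t c e (odds_le x j) hs ht hc he hne hrel
  exact ⟨g1.trans (by omega), fun h => (g2 h).trans (by omega)⟩

end Pool.Agent.Helper53.CD
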