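import Mathlib
import Pool.Agent.Helper53.CD.Pairs

set_option autoImplicit false

namespace Pool.Agent.Helper53.CD

open Finset

lemma count_windows (P : ℕ → Prop) [DecidablePred P] {L B n : ℕ} (hL : 0 < L)
    (h : ∀ i, (((range n).filter P).filter (fun t => i * L ≤ t ∧ t < (i + 1) * L)).card ≤ B) :
    ((range n).filter P).card ≤ B * (n / L + 1) := by
  classical
  have hsub : (range n).filter P ⊆ (range (n / L + 1)).biUnion
      (fun i => ((range n).filter P).filter (fun t => i * L ≤ t ∧ t < (i + 1) * L)) := by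
    intro t ht
    rw [Finset.mem_biUnion]
    have htn : t < n := Finset.mem_range.1 (Finset.mem_filter.1 ht).1
    refine ⟨t / L, ?_, ?_⟩
    · rw [Finset.mem_range]
      exact Nat.lt_succ_of_le (Nat.div_le_div_right htn.le)
    · rw [Finset.mem_filter]
      exact ⟨ht, Nat.div_mul_le_self t L, Nat.lt_mul_of_div_lt (Nat.lt_succ_self _) hL⟩
  calc ((range n).filter P).card ≤ _ := Finset.card_le_card hsub
    _ ≤ (range (n / L + 1)).card * B := Finset.card_biUnion_le_card_mul _ _ _ (fun i _ => h i)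
    _ = B * (n / L + 1) := by rw [Finset.card_range, mul_comm]

lemma odds_shift (x : ℤ) {t₁ t₂ : ℕ} (h : t₁ ≤ t₂) :
    odds (T^[t₁] x) (t₂ - t₁) = ((Ico t₁ t₂).filter (fun i => T^[i] x % 2 = 1)).card := by
  unfold odds
  rw [Finset.range_eq_Ico]
  have h1 : ((Ico t₁ t₂).filter (fun i => T^[i] x % 2 = 1)) =
      ((Ico 0 (t₂ - t₁)).filter (fun i => T^[i] (T^[t₁] x) % 2 = 1)).map
        (addRightEmbedding t₁) := by
    ext i
    simp only [Finset.mem_filter, Finset.mem_Ico, Finset.mem_map, addRightEmbedding_apply]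
    constructor
    · rintro ⟨⟨h2, h3⟩, h4⟩
      refine ⟨i - t₁, ⟨⟨Nat.zero_le _, by omega⟩, ?_⟩, by omega⟩
      rw [← Function.iterate_add_apply, Nat.sub_add_cancel h2]
      exact h4
    · rintro ⟨u, ⟨⟨_, h3⟩, h4⟩, rfl⟩
      refine ⟨⟨by omega, by omega⟩, ?_⟩
      rw [Function.iterate_add_apply]
      exact h4
  rw [h1, Finset.card_map]

/-- few odd elements with a property in a window -/
lemma window_odd (x : ℤ) (Q : Finset ℕ) {A : ℕ} (hodd : ∀ t ∈ Q, T^[t] x % 2 = 1)
    (h : ∀ t₁ ∈ Q, ∀ t₂ ∈ Q, t₁ ≤ t₂ → odds (T^[t₁] x) (t₂ - t₁) ≤ A) : Q.card ≤ A + 1 := by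
  classical
  rcases Q.eq_empty_or_nonempty with rfl | hne
  · simp
  · have hmin := Q.min'_mem hne
    have hmax := Q.max'_mem hne
    have h1 := h _ hmin _ hmax (Q.min'_le _ hmax)
    rw [odds_shift x (Q.min'_le _ hmax)] at h1
    have h2 : Q.erase (Q.max' hne) ⊆
        (Ico (Q.min' hne) (Q.max' hne)).filter (fun i => T^[i] x % 2 = 1) := by
      intro t ht
      rw [Finset.mem_erase] at ht
      rw [Finset.mem_filter, Finset.mem_Ico]
      exact ⟨⟨Q.min'_le _ ht.2, lt_of_le_of_ne (Q.le_max' _ ht.2) ht.1⟩, hodd t ht.2⟩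
    have h3 := Finset.card_le_card h2
    rw [Finset.card_erase_of_mem hmax] at h3
    omega

lemma window_all (Q : Finset ℕ) {A : ℕ}
    (h : ∀ t₁ ∈ Q, ∀ t₂ ∈ Q, t₁ ≤ t₂ → t₂ - t₁ ≤ A) : Q.card ≤ A + 1 := by
  classical
  rcases Q.eq_empty_or_nonempty with rfl | hne
  · simp
  · have hmin := Q.min'_mem hne
    have hmax := Q.max'_mem hne
    have h1 := h _ hmin _ hmax (Q.min'_le _ hmax)
    have h2 : Q ⊆ Ico (Q.min' hne) (Q.max' hne + 1) := by
      intro t ht
      rw [Finset.mem_Ico]
      exact ⟨Q.min'_le _ ht, Nat.lt_succ_of_le (Q.le_max' _ ht)⟩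
    have h3 := Finset.card_le_card h2
    rw [Nat.card_Ico] at h3
    omega

/-- the numbers of the sparse elements in stretches of trajectories, abstract form -/
theorem stretches_aux (G : ℕ → ℤ → Prop) (C₀ : ℕ) (hC₀ : 1 ≤ C₀) (c : Prop)
    (hG : ∀ (x : ℤ) (j Q : ℕ), ((C₀ * (Q * 3 ^ j) ^ C₀ : ℕ) : ℤ) ≤ |x| → G Q x → G Q (T^[j] x) →
      odds x j ≤ C₀ ∧ (c → j ≤ C₀)) (hG1 : ∀ Q x, G Q x → 1 ≤ Q) :
    ∃ C : ℕ, 1 ≤ C ∧ ∀ (x : ℤ) (n m Q : ℕ), 2 ≤ m → Q ^ C ≤ m →
      (∀ t < n, (m : ℤ) ≤ |T^[t] x|) →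
      (Set.ncard {t | t < n ∧ T^[t] x % 2 = 1 ∧ G Q (T^[t] x)} : ℝ) ≤ C * (1 + n / Real.log m) ∧
      (c → (Set.ncard {t | t < n ∧ G Q (T^[t] x)} : ℝ) ≤ C * (1 + n / Real.log m)) := by
  classical
  set M₀ : ℕ := C₀ ^ 4 + 3 ^ (4 * C₀) with hM₀
  refine ⟨(C₀ + 1) * (32 * C₀) + M₀, Nat.one_le_iff_ne_zero.2 (by positivity), ?_⟩
  set C : ℕ := (C₀ + 1) * (32 * C₀) + M₀ with hC
  intro x n m Q hm hQ hx
  have hlogm : 0 < Real.log m := Real.log_pos (by exact_mod_cast (by omega : 1 < m))
  have hset1 : {t | t < n ∧ T^[t] x % 2 = 1 ∧ G Q (T^[t] x)} =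
      (((range n).filter (fun t => T^[t] x % 2 = 1 ∧ G Q (T^[t] x)) : Finset ℕ) : Set ℕ) := by
    ext t; simp
  have hset2 : {t | t < n ∧ G Q (T^[t] x)} =
      (((range n).filter (fun t => G Q (T^[t] x)) : Finset ℕ) : Set ℕ) := by
    ext t; simp
  rw [hset1, hset2, Set.ncard_coe_finset, Set.ncard_coe_finset]
  by_cases hmM : m < M₀
  · -- small `m`
    have h1 : ∀ (P : ℕ → Prop) [DecidablePred P], (((range n).filter P).card : ℝ) ≤
        C * (1 + n / Real.log m) := by
      intro P _
      have h2 : (((range n).filter P).card : ℝ) ≤ n := by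
        exact_mod_cast (Finset.card_filter_le _ _).trans (by simp)
      have h3 : Real.log m ≤ C := by
        have h4 : Real.log m ≤ m := (Real.log_le_sub_one_of_pos (by positivity)).trans (by linarith)
        have h5 : (m : ℝ) ≤ C := by exact_mod_cast (by omega : m ≤ C)
        linarith
      have h6 : (n : ℝ) ≤ C * (n / Real.log m) := by
        rw [← mul_div_assoc, le_div_iff₀ hlogm]
        nlinarith [Nat.cast_nonneg (α := ℝ) n]
      have h7 : (0 : ℝ) ≤ C := by positivity
      nlinarith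
    exact ⟨h1 _, fun _ => h1 _⟩
  · push Not at hmM
    have hM1 : C₀ ^ 4 ≤ m := (Nat.le_add_right _ _).trans hmM
    have hM2 : 3 ^ (4 * C₀) ≤ m := (Nat.le_add_left _ _).trans hmM
    have hC₀r : (1 : ℝ) ≤ C₀ := by exact_mod_cast hC₀
    have hlog3 : 0 < Real.log 3 := Real.log_pos (by norm_num)
    have hlog3' : Real.log 3 ≤ 2 :=
      (Real.log_le_sub_one_of_pos (by norm_num)).trans (by norm_num)
    have hl1 : 4 * Real.log C₀ ≤ Real.log m := by
      have : Real.log ((C₀ : ℝ) ^ 4) ≤ Real.log m :=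
        Real.log_le_log (by positivity) (by exact_mod_cast hM1)
      rw [Real.log_pow] at this
      exact_mod_cast this
    have hl2 : 4 * C₀ * Real.log 3 ≤ Real.log m := by
      have : Real.log ((3 : ℝ) ^ (4 * C₀)) ≤ Real.log m :=
        Real.log_le_log (by positivity) (by exact_mod_cast hM2)
      rw [Real.log_pow] at this
      push_cast at this
      exact this
    set L : ℕ := ⌊Real.log m / (4 * C₀ * Real.log 3)⌋₊ with hL
    have hden : 0 < 4 * C₀ * Real.log 3 := by positivity
    have hL1 : 1 ≤ L := by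
      rw [hL]
      apply Nat.le_floor
      rw [Nat.cast_one, le_div_iff₀ hden, one_mul]
      exact hl2
    have hLle : L * (4 * C₀ * Real.log 3) ≤ Real.log m := by
      have : (L : ℝ) ≤ Real.log m / (4 * C₀ * Real.log 3) := Nat.floor_le (by positivity)
      rwa [le_div_iff₀ hden] at this
    have hLge : Real.log m ≤ 2 * L * (4 * C₀ * Real.log 3) := by
      have h1 : Real.log m / (4 * C₀ * Real.log 3) < L + 1 := Nat.lt_floor_add_one _
      rw [div_lt_iff₀ hden] at h1
      have h2 : (1 : ℝ) ≤ L := by exact_mod_cast hL1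
      nlinarith
    -- the condition on pairs
    have hcond : 1 ≤ Q → ∀ j < L, ∀ t < n, ((C₀ * (Q * 3 ^ j) ^ C₀ : ℕ) : ℤ) ≤ |T^[t] x| := by
      intro hQ1 j hj t ht
      refine le_trans ?_ (hx t ht)
      have hlQ : 4 * C₀ * Real.log Q ≤ Real.log m := by
        have h1 : Q ^ (4 * C₀) ≤ m := by
          refine le_trans (Nat.pow_le_pow_right hQ1 ?_) hQ
          rw [hC]
          nlinarith
        have : Real.log ((Q : ℝ) ^ (4 * C₀)) ≤ Real.log m :=
          Real.log_le_log (by positivity) (by exact_mod_cast h1)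
        rw [Real.log_pow] at this
        push_cast at this
        exact this
      have hlog : Real.log ((C₀ * (Q * 3 ^ j) ^ C₀ : ℕ) : ℝ) ≤ Real.log m := by
        push_cast
        rw [Real.log_mul (by positivity) (by positivity), Real.log_pow,
          Real.log_mul (by positivity) (by positivity), Real.log_pow]
        have h1 : (j : ℝ) ≤ L := by exact_mod_cast hj.le
        have h2 : (C₀ : ℝ) * (j * Real.log 3) ≤ C₀ * (L * Real.log 3) := by gcongr
        nlinarith
      have h3 : ((C₀ * (Q * 3 ^ j) ^ C₀ : ℕ) : ℝ) ≤ m := by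
        rw [Real.log_le_log_iff (by positivity) (by positivity)] at hlog
        exact hlog
      exact_mod_cast h3
    have hfin : ∀ (P : ℕ → Prop) [DecidablePred P],
        (∀ i, (((range n).filter P).filter (fun t => i * L ≤ t ∧ t < (i + 1) * L)).card ≤ C₀ + 1) →
        (((range n).filter P).card : ℝ) ≤ C * (1 + n / Real.log m) := by
      intro P _ hP
      have h1 := count_windows P (L := L) (B := C₀ + 1) (n := n) hL1 hP
      have h2 : (((range n).filter P).card : ℝ) ≤ (C₀ + 1) * (n / L + 1) := by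
        have h3 : (((range n).filter P).card : ℝ) ≤ (((C₀ + 1) * (n / L + 1) : ℕ) : ℝ) := by
          exact_mod_cast h1
        push_cast at h3
        refine h3.trans ?_
        have h4 : ((n / L : ℕ) : ℝ) ≤ (n : ℝ) / L := Nat.cast_div_le
        gcongr
      have hLpos : (0 : ℝ) < L := by exact_mod_cast hL1
      have h5 : (n : ℝ) / L ≤ 16 * C₀ * (n / Real.log m) := by
        rw [div_le_iff₀ hLpos]
        have h6 : Real.log m ≤ 16 * C₀ * L := by
          calc Real.log m ≤ 2 * L * (4 * C₀ * Real.log 3) := hLge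
            _ ≤ 2 * L * (4 * C₀ * 2) := by gcongr
            _ = 16 * C₀ * L := by ring
        have h7 : (n : ℝ) = n / Real.log m * Real.log m := by field_simp
        calc (n : ℝ) = n / Real.log m * Real.log m := h7
          _ ≤ n / Real.log m * (16 * C₀ * L) := by gcongr
          _ = 16 * C₀ * (n / Real.log m) * L := by ring
      have h8 : (0 : ℝ) ≤ n / Real.log m := by positivity
      calc (((range n).filter P).card : ℝ) ≤ (C₀ + 1) * (n / L + 1) := h2
        _ ≤ (C₀ + 1) * (16 * C₀ * (n / Real.log m) + 1) := by gcongr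
        _ ≤ ((C₀ + 1) * (32 * C₀) + M₀) * (1 + n / Real.log m) := by
            have h9 : (0 : ℝ) ≤ (M₀ : ℝ) := by positivity
            have h10 : (0 : ℝ) ≤ (C₀ + 1) * C₀ * (n / Real.log m) := by positivity
            have h11 : (1 : ℝ) * (C₀ + 1) ≤ C₀ * (C₀ + 1) := by gcongr
            nlinarith [mul_nonneg h9 h8]
        _ = C * (1 + n / Real.log m) := by rw [hC]; push_cast; ring
    constructor
    · apply hfin
      intro i
      by_cases hQ1 : 1 ≤ Q
      · apply window_odd x
        · intro t ht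
          rw [Finset.mem_filter, Finset.mem_filter] at ht
          exact ht.1.2.1
        · intro t₁ h₁ t₂ h₂ h12
          rw [Finset.mem_filter, Finset.mem_filter, Finset.mem_range] at h₁ h₂
          have hj : t₂ - t₁ < L := by
            have e1 := h₂.2.2
            have e2 := h₁.2.1
            have e3 : (i + 1) * L = i * L + L := by ring
            omega
          apply (hG (T^[t₁] x) (t₂ - t₁) Q (hcond hQ1 _ hj t₁ h₁.1.1) h₁.1.2.2 _).1
          rw [← Function.iterate_add_apply, Nat.sub_add_cancel h12]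
          exact h₂.1.2.2
      · rw [Finset.card_eq_zero.2]
        · exact Nat.zero_le _
        · rw [Finset.filter_eq_empty_iff]
          intro t ht
          rw [Finset.mem_filter] at ht
          exact absurd (hG1 _ _ ht.2.2) hQ1
    · intro hc
      apply hfin
      intro i
      by_cases hQ1 : 1 ≤ Q
      · apply window_all
        intro t₁ h₁ t₂ h₂ h12
        rw [Finset.mem_filter, Finset.mem_filter, Finset.mem_range] at h₁ h₂
        have hj : t₂ - t₁ < L := by
          have e1 := h₂.2.2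
          have e2 := h₁.2.1
          have e3 : (i + 1) * L = i * L + L := by ring
          omega
        apply (hG (T^[t₁] x) (t₂ - t₁) Q (hcond hQ1 _ hj t₁ h₁.1.1) h₁.1.2 _).2 hc
        rw [← Function.iterate_add_apply, Nat.sub_add_cancel h12]
        exact h₂.1.2
      · rw [Finset.card_eq_zero.2]
        · exact Nat.zero_le _
        · rw [Finset.filter_eq_empty_iff]
          intro t ht
          rw [Finset.mem_filter] at ht
          exact absurd (hG1 _ _ ht.2) hQ1

/-- an element of a cycle is smaller than `3 ^ p` -/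
lemma cycle_lt {x : ℤ} {p : ℕ} (hp : 1 ≤ p) (h : T^[p] x = x) : |x| < 3 ^ p := by
  obtain ⟨φ, h0, h1, h2⟩ := formula x p
  rw [h] at h2
  have h2p : (0 : ℤ) < 2 ^ p := by positivity
  have h3 : (2 ^ p - 3 ^ (odds x p) : ℤ) * x = φ := by linear_combination h2
  have h4 : (2 ^ p - 3 ^ (odds x p) : ℤ) ≠ 0 := by
    intro h5
    have h6 : (2 : ℤ) ^ p = 3 ^ (odds x p) := by linarith
    have h7 : (2 : ℤ) ∣ 3 ^ (odds x p) := by
      rw [← h6]; exact dvd_pow_self 2 (by omega)
    have h8 : (2 : ℤ) ∣ 3 := Int.prime_two.dvd_of_dvd_pow h7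
    revert h8; decide
  have h5 : 1 ≤ |(2 ^ p - 3 ^ (odds x p) : ℤ)| := Int.one_le_abs h4
  have h6 : |(2 ^ p - 3 ^ (odds x p) : ℤ)| * |x| = φ := by
    rw [← abs_mul, h3, abs_of_nonneg h0]
  nlinarith [abs_nonneg x]

end Pool.Agent.Helper53.CD
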