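import Mathlib
import Pool.Agent.Helper53.CD.Defs

set_option autoImplicit false

namespace Pool.Agent.Helper53.CD

open Finset

lemma sum_digits {b : ℕ} (n N : ℕ) :
    ∑ i ∈ range N, (n / b ^ i % b) * b ^ i = n % b ^ N := by
  induction N with
  | zero => simp [Nat.mod_one]
  | succ N ih =>
    rw [Finset.sum_range_succ, ih, Nat.mod_pow_succ]
    ring

lemma dig_zero {b : ℕ} {n N i : ℕ} (hb : 2 ≤ b) (hn : n < b ^ N) (hi : N ≤ i) :
    n / b ^ i % b = 0 := by
  have h1 : b ^ N ≤ b ^ i := Nat.pow_le_pow_right (by omega) hi
  rw [Nat.div_eq_of_lt (by omega)]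
  simp

lemma exists_pow_gt {b : ℕ} (hb : 2 ≤ b) (n : ℕ) : ∃ N, n < b ^ N :=
  ⟨n, Nat.lt_pow_self (by omega)⟩

lemma few_neg {b k H : ℕ} {z : ℤ} (h : Few b k H z) : Few b k H (-z) := by
  obtain ⟨s, c, h1, h2, h3⟩ := h
  refine ⟨s, fun i => - c i, h1, fun i hi => by rw [abs_neg]; exact h2 i hi, ?_⟩
  rw [h3, ← Finset.sum_neg_distrib]
  apply Finset.sum_congr rfl
  intro i _
  ring

lemma few_of_natAbs {b k H : ℕ} {x D : ℤ} (h : Few b k H (D * x.natAbs)) : Few b k H (D * x) := by
  rcases Int.natAbs_eq x with h1 | h1
  · rw [h1]; exact h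
  · rw [h1, mul_neg]; exact few_neg h

lemma card_le_of_encard {s : Finset ℕ} {A : Set ℕ} {k : ℕ} (hs : ∀ i ∈ s, i ∈ A)
    (hA : A.encard ≤ k) : s.card ≤ k := by
  have h1 : ((s : Set ℕ)).encard ≤ A.encard := Set.encard_le_encard (fun i hi => hs i hi)
  rw [Set.encard_coe_eq_coe_finsetCard] at h1
  exact_mod_cast h1.trans hA

/-- numbers with few nonzero digits -/
theorem sparse_of_digits {b k : ℕ} (hb : 2 ≤ b) {x : ℤ} (h : FewDigits b k x) :
    Sparse b (k + 1) b 1 x := by
  classical
  refine ⟨1, le_rfl, by simp, ?_, ?_⟩
  · refine ⟨{0}, fun _ => 1, by simp, ?_, by simp⟩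
    intro i _
    have : (1 : ℤ) ≤ b := by exact_mod_cast (by omega : 1 ≤ b)
    simpa using this
  · apply few_of_natAbs
    obtain ⟨N, hN⟩ := exists_pow_gt hb x.natAbs
    refine ⟨(range N).filter (fun i => dig b x i ≠ 0), fun i => (dig b x i : ℤ), ?_, ?_, ?_⟩
    · refine (card_le_of_encard ?_ h).trans (Nat.le_succ k)
      intro i hi
      exact (Finset.mem_filter.1 hi).2
    · intro i _
      have h1 : dig b x i < b := Nat.mod_lt _ (by omega)
      have h2 : |((dig b x i : ℕ) : ℤ)| ≤ b := by
        rw [abs_of_nonneg (by positivity)]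
        exact_mod_cast h1.le
      exact h2
    · rw [Finset.sum_filter_of_ne]
      · have h1 := sum_digits (b := b) x.natAbs N
        rw [Nat.mod_eq_of_lt hN] at h1
        rw [one_mul]
        conv_lhs => rw [← h1]
        push_cast
        apply Finset.sum_congr rfl
        intro i _
        simp [dig]
      · intro i _ h2 h3
        apply h2
        simp only
        rw [h3]; simp

/-- numbers whose digits are periodic up to few changes -/
theorem sparse_of_changes {b k R : ℕ} (hb : 2 ≤ b) (hR : 1 ≤ R) {x : ℤ} (h : FewChanges b R k x) :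
    Sparse b (2 * k + 2) b (b ^ R) x := by
  classical
  have hbR : (2 : ℤ) ≤ (b : ℤ) ^ R := by
    have h1 : 2 ≤ b ^ R := hb.trans (Nat.le_self_pow (by omega) b)
    exact_mod_cast h1
  have hbz : (1 : ℤ) ≤ b := by exact_mod_cast (by omega : 1 ≤ b)
  refine ⟨(b : ℤ) ^ R - 1, by linarith, by push_cast; linarith, ?_, ?_⟩
  · refine ⟨{0, R}, fun i => if i = 0 then -1 else 1, ?_, ?_, ?_⟩
    · exact (Finset.card_le_two).trans (by omega)
    · intro i _
      simp only
      split_ifs <;> simpa using hbz
    · rw [Finset.sum_pair (by omega)]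
      simp only
      rw [if_pos trivial, if_neg (by omega)]
      ring
  · apply few_of_natAbs
    obtain ⟨N, hN⟩ := exists_pow_gt hb x.natAbs
    set d : ℕ → ℕ := fun i => dig b x i with hd
    have hd0 : ∀ i, N ≤ i → d i = 0 := fun i hi => dig_zero hb hN hi
    have hdb : ∀ i, (d i : ℤ) < b := by
      intro i
      have h1 : dig b x i < b := Nat.mod_lt _ (by omega)
      exact_mod_cast h1
    set c : ℕ → ℤ := fun i => if i < R then -(d i : ℤ) else (d (i - R) : ℤ) - d i with hc
    set Low : Finset ℕ := (range R).filter (fun i => d i ≠ 0) with hLow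
    set Ch : Finset ℕ := (range N).filter (fun i => d i ≠ d (i + R)) with hCh
    have hChk : Ch.card ≤ k := by
      refine card_le_of_encard ?_ h
      intro i hi
      exact (Finset.mem_filter.1 hi).2
    -- the low digits
    have hex : ∀ i ∈ Low, ∃ l ∈ Ch, l % R = i := by
      intro i hi
      rw [hLow, Finset.mem_filter, Finset.mem_range] at hi
      by_contra hcon
      push Not at hcon
      have h1 : ∀ q, d (i + q * R) = d i := by
        intro q
        induction q with
        | zero => simp
        | succ q ih =>
          by_contra hne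
          have h2 : i + q * R ∈ Ch := by
            rw [hCh, Finset.mem_filter, Finset.mem_range]
            constructor
            · by_contra hge
              push Not at hge
              rw [hd0 _ hge] at ih
              exact hi.2 ih.symm
            · rw [ih]
              intro h3
              apply hne
              rw [h3]
              congr 1
              ring
          apply hcon _ h2
          rw [Nat.add_mul_mod_self_right, Nat.mod_eq_of_lt hi.1]
      have h4 := h1 N
      rw [hd0 _ (by nlinarith)] at h4
      exact hi.2 h4.symm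
    choose! f hf1 hf2 using hex
    have hLowk : Low.card ≤ k := by
      refine (Finset.card_le_card_of_injOn f (fun i hi => hf1 i hi) ?_).trans hChk
      intro i hi j hj hij
      rw [← hf2 i hi, ← hf2 j hj, hij]
    refine ⟨(range (N + R)).filter (fun i => c i ≠ 0), c, ?_, ?_, ?_⟩
    · have hsub : (range (N + R)).filter (fun i => c i ≠ 0) ⊆ Low ∪ Ch.image (· + R) := by
        intro i hi
        rw [Finset.mem_filter, Finset.mem_range] at hi
        rw [Finset.mem_union]
        by_cases hiR : i < R
        · left
          rw [hLow, Finset.mem_filter, Finset.mem_range]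
          refine ⟨hiR, ?_⟩
          intro h0
          apply hi.2
          simp [hc, hiR, h0]
        · right
          rw [Finset.mem_image]
          refine ⟨i - R, ?_, by omega⟩
          rw [hCh, Finset.mem_filter, Finset.mem_range]
          refine ⟨by omega, ?_⟩
          intro h0
          apply hi.2
          rw [Nat.sub_add_cancel (by omega)] at h0
          simp [hc, hiR, h0]
      calc _ ≤ (Low ∪ Ch.image (· + R)).card := Finset.card_le_card hsub
        _ ≤ Low.card + (Ch.image (· + R)).card := Finset.card_union_le _ _
        _ ≤ k + k := Nat.add_le_add hLowk (Finset.card_image_le.trans hChk)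
        _ ≤ 2 * k + 2 := by omega
    · intro i _
      simp only [hc]
      have h1 := hdb i
      have h2 := hdb (i - R)
      have h3 : (0 : ℤ) ≤ d i := by positivity
      have h4 : (0 : ℤ) ≤ d (i - R) := by positivity
      split_ifs
      · rw [abs_neg, abs_of_nonneg h3]; exact h1.le
      · rw [abs_le]; constructor <;> linarith
    · rw [Finset.sum_filter_of_ne]
      · have h1 := sum_digits (b := b) x.natAbs N
        rw [Nat.mod_eq_of_lt hN] at h1
        have h1' : (x.natAbs : ℤ) = ∑ i ∈ range N, (d i : ℤ) * (b : ℤ) ^ i := by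
          conv_lhs => rw [← h1]
          push_cast
          apply Finset.sum_congr rfl
          intro i _
          simp [hd, dig]
        have h2' : (x.natAbs : ℤ) = ∑ i ∈ range (N + R), (d i : ℤ) * (b : ℤ) ^ i := by
          rw [h1', Finset.sum_range_add]
          have : ∑ i ∈ range R, (d (N + i) : ℤ) * (b : ℤ) ^ (N + i) = 0 := by
            apply Finset.sum_eq_zero
            intro i _
            rw [hd0 _ (by omega)]; simp
          rw [this, add_zero]
        have h3 : ∑ i ∈ range (N + R), c i * (b : ℤ) ^ i =
            ∑ i ∈ range (N + R), (if i < R then (0 : ℤ) else (d (i - R) : ℤ) * (b : ℤ) ^ i) -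
              ∑ i ∈ range (N + R), (d i : ℤ) * (b : ℤ) ^ i := by
          rw [← Finset.sum_sub_distrib]
          apply Finset.sum_congr rfl
          intro i _
          simp only [hc]
          split_ifs <;> ring
        have h4 : ∑ i ∈ range (N + R), (if i < R then (0 : ℤ) else (d (i - R) : ℤ) * (b : ℤ) ^ i) =
            (b : ℤ) ^ R * x.natAbs := by
          rw [add_comm N R, Finset.sum_range_add, h1', Finset.mul_sum]
          have : ∑ i ∈ range R, (if i < R then (0 : ℤ) else (d (i - R) : ℤ) * (b : ℤ) ^ i) = 0 := by
            apply Finset.sum_eq_zero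
            intro i hi
            rw [if_pos (Finset.mem_range.1 hi)]
          rw [this, zero_add]
          apply Finset.sum_congr rfl
          intro i _
          rw [if_neg (by omega), Nat.add_sub_cancel_left, pow_add]
          ring
        rw [h3, h4, ← h2']
        ring
      · intro i _ h2 h3
        apply h2
        rw [h3]; simp

end Pool.Agent.Helper53.CD
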