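import Mathlib
import Pool.Agent.Helper53.CD.Count
import Pool.Agent.Helper53.CD.Digits

set_option autoImplicit false

namespace Pool.Agent.Helper53.CD

lemma Sparse.mono {b k k' H H' Q Q' : ℕ} {x : ℤ} (h : Sparse b k H Q x) (hk : k ≤ k')
    (hH : H ≤ H') (hQ : Q ≤ Q') : Sparse b k' H' Q' x := by
  obtain ⟨D, h1, h2, h3, h4⟩ := h
  exact ⟨D, h1, h2.trans (by exact_mod_cast hQ), h3.mono hk hH, h4.mono hk hH⟩

lemma Sparse.one_le {b k H Q : ℕ} {x : ℤ} (h : Sparse b k H Q x) : 1 ≤ Q := by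
  obtain ⟨D, h1, h2, _, _⟩ := h
  exact_mod_cast h1.trans h2

lemma log_le_two_mul {x : ℤ} {p m : ℕ} (hp : 1 ≤ p) (h : T^[p] x = x) (hm : 2 ≤ m)
    (hx : (m : ℤ) ≤ |x|) : Real.log m ≤ 2 * p := by
  have h1 := cycle_lt hp h
  have h2 : m < 3 ^ p := by exact_mod_cast lt_of_le_of_lt hx h1
  have h3 : Real.log m ≤ Real.log ((3 : ℝ) ^ p) :=
    Real.log_le_log (by positivity) (by exact_mod_cast h2.le)
  rw [Real.log_pow] at h3
  have h4 : Real.log 3 ≤ 2 := (Real.log_le_sub_one_of_pos (by norm_num)).trans (by norm_num)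
  have h5 : (0 : ℝ) ≤ p := by positivity
  nlinarith

/-- stretches and cycles, abstract form -/
theorem cycles_aux (G : ℕ → ℤ → Prop) (C₀ : ℕ) (hC₀ : 1 ≤ C₀) (c : Prop)
    (hG : ∀ (x : ℤ) (j Q : ℕ), ((C₀ * (Q * 3 ^ j) ^ C₀ : ℕ) : ℤ) ≤ |x| → G Q x → G Q (T^[j] x) →
      odds x j ≤ C₀ ∧ (c → j ≤ C₀)) (hG1 : ∀ Q x, G Q x → 1 ≤ Q) :
    ∃ C : ℕ, (∀ (x : ℤ) (n m Q : ℕ), 2 ≤ m → Q ^ C ≤ m →
      (∀ t < n, (m : ℤ) ≤ |T^[t] x|) →
      (Set.ncard {t | t < n ∧ T^[t] x % 2 = 1 ∧ G Q (T^[t] x)} : ℝ) ≤ C * (1 + n / Real.log m) ∧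
      (c → (Set.ncard {t | t < n ∧ G Q (T^[t] x)} : ℝ) ≤ C * (1 + n / Real.log m))) ∧
    (∀ (x : ℤ) (p m Q : ℕ), 1 ≤ p → T^[p] x = x → 2 ≤ m → Q ^ C ≤ m →
      (∀ t < p, (m : ℤ) ≤ |T^[t] x|) →
      (Set.ncard {t | t < p ∧ T^[t] x % 2 = 1 ∧ G Q (T^[t] x)} : ℝ) ≤ C * (p / Real.log m) ∧
      (c → (Set.ncard {t | t < p ∧ G Q (T^[t] x)} : ℝ) ≤ C * (p / Real.log m))) := by
  obtain ⟨C, hC1, hC⟩ := stretches_aux G C₀ hC₀ c hG hG1
  have hpow : ∀ Q m : ℕ, Q ^ (3 * C) ≤ m → Q ^ C ≤ m := by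
    intro Q m h
    rcases Nat.eq_zero_or_pos Q with h0 | h0
    · rw [h0, zero_pow (by omega)]; exact Nat.zero_le _
    · exact (Nat.pow_le_pow_right h0 (by omega)).trans h
  refine ⟨3 * C, ?_, ?_⟩
  · intro x n m Q hm hQ hx
    have hlogm : 0 < Real.log m := Real.log_pos (by exact_mod_cast (by omega : 1 < m))
    obtain ⟨h1, h2⟩ := hC x n m Q hm (hpow Q m hQ) hx
    have h3 : (C : ℝ) * (1 + n / Real.log m) ≤ ((3 * C : ℕ) : ℝ) * (1 + n / Real.log m) := by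
      push_cast
      have h4 : (0 : ℝ) ≤ C * (1 + n / Real.log m) := by positivity
      linarith
    exact ⟨h1.trans h3, fun hc => (h2 hc).trans h3⟩
  · intro x p m Q hp hper hm hQ hx
    have hlogm : 0 < Real.log m := Real.log_pos (by exact_mod_cast (by omega : 1 < m))
    obtain ⟨h1, h2⟩ := hC x p m Q hm (hpow Q m hQ) hx
    have h5 : Real.log m ≤ 2 * p := log_le_two_mul hp hper hm (hx 0 (by omega))
    have h6 : (1 : ℝ) ≤ 2 * (p / Real.log m) := by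
      rw [← mul_div_assoc, le_div_iff₀ hlogm, one_mul]
      exact h5
    have h3 : (C : ℝ) * (1 + p / Real.log m) ≤ ((3 * C : ℕ) : ℝ) * (p / Real.log m) := by
      push_cast
      have h7 : (0 : ℝ) ≤ C := by positivity
      nlinarith
    exact ⟨h1.trans h3, fun hc => (h2 hc).trans h3⟩

end Pool.Agent.Helper53.CD
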